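import Mathlib

open Set TopologicalSpace

namespace Pool.Agent.MP_dd3b7d_gt

/-- A space is co-consonant when the upper topology and the Scott topology of its lattice of
open sets coincide. -/
def CoConsonant (X : Type) [TopologicalSpace X] : Prop :=
  Topology.upper (Opens X) = Topology.scott (Opens X) Set.univ

/-- Points of the Smyth powerspace: nonempty compact saturated subsets. -/
structure Smyth (X : Type) [TopologicalSpace X] where
  carrier : Set X
  nonempty : carrier.Nonempty
  compact : IsCompact carrier
  saturated : carrier = ⋂₀ {U : Set X | IsOpen U ∧ carrier ⊆ U}

/-- The upper Vietoris topology, generated by the sets of all `K` contained in an open `U`. -/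
instance smythTopology (X : Type) [TopologicalSpace X] : TopologicalSpace (Smyth X) :=
  TopologicalSpace.generateFrom
    {S : Set (Smyth X) | ∃ U : Set X, IsOpen U ∧ S = {K : Smyth X | K.carrier ⊆ U}}

end Pool.Agent.MP_dd3b7d_gt
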