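import Pool.Agent.MP_dd3b7d_gt.Defs

open Set TopologicalSpace

namespace Pool.Agent.MP_dd3b7d_gt

theorem scott_isOpen_iff {α : Type} [Preorder α] (F : Set α) :
    @IsOpen α (Topology.scott α Set.univ) F ↔ IsUpperSet F ∧ DirSupInacc F := by
  let : TopologicalSpace α := Topology.scott α Set.univ
  have : Topology.IsScott α Set.univ := ⟨rfl⟩
  rw [Topology.IsScott.isOpen_iff_isUpperSet_and_dirSupInaccOn (D := Set.univ),
    dirSupInaccOn_univ]

theorem scott_le_upper' {α : Type} [Preorder α] :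
    Topology.scott α Set.univ ≤ Topology.upper α := by
  refine le_generateFrom ?_
  rintro s ⟨a, rfl⟩
  rw [scott_isOpen_iff]
  refine ⟨(isLowerSet_Iic a).compl, ?_⟩
  intro d _ _ b hb hba
  by_contra hcon
  refine hba (hb.2 fun x hx => ?_)
  by_contra hxa
  exact hcon ⟨x, hx, hxa⟩

theorem coConsonant_of_cspace {Y : Type} [TopologicalSpace Y]
    (h : ∀ U : Set Y, IsOpen U → ∀ x ∈ U, ∃ y ∈ U, ∃ W : Set Y, IsOpen W ∧ x ∈ W ∧
      ∀ V : Set Y, IsOpen V → y ∈ V → W ⊆ V) : CoConsonant Y := by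
  refine le_antisymm ?_ scott_le_upper'
  intro F hF
  obtain ⟨hup, hin⟩ := (scott_isOpen_iff F).1 hF
  let : TopologicalSpace (Opens Y) := Topology.upper (Opens Y)
  change IsOpen F
  rw [isOpen_iff_forall_mem_open]
  intro U hU
  let D : Set (Opens Y) := {W | ∃ E : Set Y, E.Finite ∧ E ⊆ U ∧ ∀ V : Opens Y, E ⊆ V → W ≤ V}
  have hne : D.Nonempty := ⟨⊥, ∅, finite_empty, empty_subset _, fun V _ => bot_le⟩
  have hdir : DirectedOn (· ≤ ·) D := by
    rintro W1 ⟨E1, f1, s1, h1⟩ W2 ⟨E2, f2, s2, h2⟩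
    refine ⟨W1 ⊔ W2, ⟨E1 ∪ E2, f1.union f2, union_subset s1 s2, fun V hV => ?_⟩,
      le_sup_left, le_sup_right⟩
    exact sup_le (h1 V (subset_union_left.trans hV)) (h2 V (subset_union_right.trans hV))
  have hlub : IsLUB D U := by
    constructor
    · rintro W ⟨E, -, s, hE⟩
      exact hE U s
    · intro V hV x hx
      obtain ⟨y, hy, W, hW, hxW, hWV⟩ := h U U.isOpen x hx
      have : (⟨W, hW⟩ : Opens Y) ∈ D :=
        ⟨{y}, finite_singleton y, singleton_subset_iff.2 hy, fun V' hV' =>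
          hWV V' V'.isOpen (singleton_subset_iff.1 hV')⟩
      exact hV this hxW
  obtain ⟨W, ⟨E, hEf, hEU, hE⟩, hWF⟩ := hin hne hdir hlub hU
  refine ⟨⋂ e ∈ E, (Iic (⟨(closure {e})ᶜ, isClosed_closure.isOpen_compl⟩ : Opens Y))ᶜ, ?_, ?_, ?_⟩
  · intro V hV
    refine hup (hE V fun e he => ?_) hWF
    have h1 := mem_iInter₂.1 hV e he
    by_contra hne
    apply h1
    intro z hz hzc
    obtain ⟨w, hw1, hw2⟩ := mem_closure_iff.1 hzc V V.isOpen hz
    rw [mem_singleton_iff.1 hw2] at hw1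
    exact hne hw1
  · refine hEf.isOpen_biInter fun e _ => ?_
    exact isOpen_generateFrom_of_mem ⟨_, rfl⟩
  · refine mem_iInter₂.2 fun e he hle => ?_
    exact hle (hEU he) (subset_closure rfl)

theorem smyth_box_isOpen {X : Type} [TopologicalSpace X] {U : Set X} (hU : IsOpen U) :
    IsOpen {K : Smyth X | K.carrier ⊆ U} :=
  isOpen_generateFrom_of_mem ⟨U, hU, rfl⟩

theorem smyth_basis {X : Type} [TopologicalSpace X] {S : Set (Smyth X)} (hS : IsOpen S) :
    ∀ K ∈ S, ∃ U : Set X, IsOpen U ∧ K.carrier ⊆ U ∧ {L : Smyth X | L.carrier ⊆ U} ⊆ S := by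
  induction hS with
  | basic s hs =>
    obtain ⟨U, hU, rfl⟩ := hs
    exact fun K hK => ⟨U, hU, hK, Subset.rfl⟩
  | univ => exact fun K _ => ⟨univ, isOpen_univ, subset_univ _, subset_univ _⟩
  | inter s t _ _ ihs iht =>
    intro K hK
    obtain ⟨U, hU, h1, h2⟩ := ihs K hK.1
    obtain ⟨V, hV, h3, h4⟩ := iht K hK.2
    exact ⟨U ∩ V, hU.inter hV, subset_inter h1 h3, fun L hL =>
      ⟨h2 (hL.trans inter_subset_left), h4 (hL.trans inter_subset_right)⟩⟩
  | sUnion T _ ih =>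
    rintro K ⟨s, hs, hK⟩
    obtain ⟨U, hU, h1, h2⟩ := ih s hs K hK
    exact ⟨U, hU, h1, h2.trans (subset_sUnion_of_mem hs)⟩

theorem saturated_of_t1 {X : Type} [TopologicalSpace X] [T1Space X] (K : Set X) :
    K = ⋂₀ {U : Set X | IsOpen U ∧ K ⊆ U} := by
  refine Subset.antisymm (subset_sInter fun U hU => hU.2) fun x hx => ?_
  by_contra hxK
  exact hx {x}ᶜ ⟨isOpen_compl_singleton, subset_compl_singleton_iff.2 hxK⟩ rfl

theorem coConsonant_smyth {X : Type} [TopologicalSpace X] [T1Space X] [LocallyCompactSpace X] :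
    CoConsonant (Smyth X) := by
  refine coConsonant_of_cspace fun S hS K hK => ?_
  obtain ⟨U, hU, h1, h2⟩ := smyth_basis hS K hK
  obtain ⟨L, hL, h3, h4⟩ := exists_compact_between K.compact hU h1
  refine ⟨⟨L, K.nonempty.mono (h3.trans interior_subset), hL, saturated_of_t1 L⟩, h2 h4,
    {M | M.carrier ⊆ interior L}, smyth_box_isOpen isOpen_interior, h3, fun V hV hLV => ?_⟩
  obtain ⟨U', -, h5, h6⟩ := smyth_basis hV _ hLV
  exact fun M hM => h6 ((hM.trans interior_subset).trans h5)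

theorem upper_nhds_top {X : Type} [TopologicalSpace X] {N : Set (Opens X)}
    (hN : @IsOpen _ (Topology.upper (Opens X)) N) :
    ⊤ ∈ N → ∃ E : Set X, E.Finite ∧ ∀ V : Opens X, E ⊆ V → V ∈ N := by
  induction hN with
  | basic s hs =>
    obtain ⟨a, rfl⟩ := hs
    intro ht
    have : ∃ e, e ∉ a := by
      by_contra hcon
      push Not at hcon
      exact ht fun x _ => hcon x
    obtain ⟨e, he⟩ := this
    exact ⟨{e}, finite_singleton e, fun V hV hle => he (hle (singleton_subset_iff.1 hV))⟩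
  | univ => exact fun _ => ⟨∅, finite_empty, fun _ _ => mem_univ _⟩
  | inter s t _ _ ihs iht =>
    intro ht
    obtain ⟨E1, f1, h1⟩ := ihs ht.1
    obtain ⟨E2, f2, h2⟩ := iht ht.2
    exact ⟨E1 ∪ E2, f1.union f2, fun V hV =>
      ⟨h1 V (subset_union_left.trans hV), h2 V (subset_union_right.trans hV)⟩⟩
  | sUnion T _ ih =>
    rintro ⟨s, hs, ht⟩
    obtain ⟨E, f, h⟩ := ih s hs ht
    exact ⟨E, f, fun V hV => ⟨s, hs, h V hV⟩⟩

theorem not_coConsonant {X : Type} [TopologicalSpace X] [T1Space X] {K : Set X}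
    (hK : IsCompact K) (hinf : K.Infinite) : ¬ CoConsonant X := by
  intro h
  have hF : @IsOpen _ (Topology.scott (Opens X) Set.univ) {U : Opens X | K ⊆ U} := by
    rw [scott_isOpen_iff]
    refine ⟨fun U V hUV hU => Subset.trans hU hUV, ?_⟩
    intro d hne hdir a hlub ha
    have ha' : a = sSup d := hlub.unique (isLUB_sSup d)
    have : Nonempty d := hne.to_subtype
    have hcov : K ⊆ ⋃ i : d, ((i : Opens X) : Set X) := by
      intro x hx
      have := ha hx
      rw [ha'] at this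
      obtain ⟨U, hU, hxU⟩ := Opens.mem_sSup.1 this
      exact mem_iUnion.2 ⟨⟨U, hU⟩, hxU⟩
    obtain ⟨i, hi⟩ := hK.elim_directed_cover (fun i : d => ((i : Opens X) : Set X))
      (fun i => (i : Opens X).isOpen) hcov (by
        intro i j
        obtain ⟨k, hk, h1, h2⟩ := hdir i i.2 j j.2
        exact ⟨⟨k, hk⟩, h1, h2⟩)
    exact ⟨i, i.2, hi⟩
  rw [← h] at hF
  obtain ⟨E, hE, hEV⟩ := upper_nhds_top hF (subset_univ K)
  obtain ⟨x, hxK, hxE⟩ := (hinf.sdiff hE).nonempty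
  exact hEV ⟨{x}ᶜ, isOpen_compl_singleton⟩ (subset_compl_singleton_iff.2 hxE) hxK rfl

end Pool.Agent.MP_dd3b7d_gt
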